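import Pool.Agent.H13.HP.Defs

/-!
MP_6b5a9a_nt (odd characteristic), module COF: the equation in terms of coefficients.
-/

set_option autoImplicit false

open Polynomial

namespace Pool.Agent.H4.HP.COF

open Pool.Agent.H13.HP

theorem desc (p m : ℕ) [hp : Fact p.Prime] (k : Type*) [Field k] [CharP k p] :
    (((p * m + (p - 1)).descFactorial (p - 1) : ℕ) : k) = -1 := by
  have hp1 : 1 < p := hp.out.one_lt
  rw [Nat.descFactorial_eq_factorial_mul_choose, Nat.cast_mul]
  have e1 : (((p - 1).factorial : ℕ) : k) = -1 := by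
    have e2 : (((p - 1).factorial + 1 : ℕ) : ZMod p) = 0 := by
      push_cast
      rw [ZMod.wilsons_lemma]
      ring
    have e3 : p ∣ (p - 1).factorial + 1 := (ZMod.natCast_eq_zero_iff _ p).1 e2
    have e4 : (((p - 1).factorial + 1 : ℕ) : k) = 0 := (CharP.cast_eq_zero_iff k p _).2 e3
    push_cast at e4
    exact eq_neg_of_add_eq_zero_left e4
  have e5 : ((Nat.choose (p * m + (p - 1)) (p - 1) : ℕ) : k) = 1 := by
    have e6 := Choose.choose_modEq_choose_mod_mul_choose_div_nat (p := p) (n := p * m + (p - 1))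
      (k := p - 1)
    have e7 : (p * m + (p - 1)) % p = p - 1 := by
      rw [Nat.mul_add_mod, Nat.mod_eq_of_lt (by omega)]
    have e8 : (p - 1) % p = p - 1 := Nat.mod_eq_of_lt (by omega)
    have e9 : (p - 1) / p = 0 := Nat.div_eq_of_lt (by omega)
    rw [e7, e8, e9, Nat.choose_self, Nat.choose_zero_right, mul_one] at e6
    have := (CharP.natCast_eq_natCast k p).2 e6
    rw [this, Nat.cast_one]
  rw [e1, e5, mul_one]

theorem cof : T_COF := by
  intro p hp k _ _ g F w hw h m
  have hp1 : 1 < p := hp.out.one_lt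
  have h0 : (w ^ p + derivative^[p - 1] (w * F)).coeff (p * m) = 0 := by
    rw [h, coeff_zero]
  have h1 : (w ^ p).coeff (p * m) = (w.coeff m) ^ p := by
    rw [← map_frobenius_expand (p := p) w, coeff_map, mul_comm p m, coeff_expand_mul (by omega)]
    rfl
  rw [coeff_add, h1, coeff_iterate_derivative, nsmul_eq_mul, desc p m k] at h0
  have h2 : (w.coeff m) ^ p = (w * F).coeff (p * m + (p - 1)) := by
    linear_combination h0
  rw [h2, show p * m + p - 1 = p * m + (p - 1) by omega]
  set n := p * m + (p - 1) with hn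
  rw [coeff_mul, Finset.Nat.sum_antidiagonal_eq_sum_range_succ (fun i j => w.coeff i * F.coeff j)]
  have h3 : ∑ j ∈ Finset.range n.succ, w.coeff j * F.coeff (n - j) =
      ∑ j ∈ Finset.range n.succ, (if j ≤ n then F.coeff (n - j) else 0) * w.coeff j := by
    refine Finset.sum_congr rfl fun j hj => ?_
    rw [Finset.mem_range] at hj
    rw [if_pos (by omega), mul_comm]
  rw [h3]
  have h4 : ∑ j ∈ Finset.range n.succ, (if j ≤ n then F.coeff (n - j) else 0) * w.coeff j =
      ∑ j ∈ Finset.range (max n.succ g), (if j ≤ n then F.coeff (n - j) else 0) * w.coeff j := by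
    refine Finset.sum_subset (Finset.range_mono (le_max_left _ _)) fun j _ hj => ?_
    rw [Finset.mem_range, not_lt] at hj
    rw [if_neg (by omega), zero_mul]
  have h5 : ∑ j ∈ Finset.range g, (if j ≤ n then F.coeff (n - j) else 0) * w.coeff j =
      ∑ j ∈ Finset.range (max n.succ g), (if j ≤ n then F.coeff (n - j) else 0) * w.coeff j := by
    refine Finset.sum_subset (Finset.range_mono (le_max_right _ _)) fun j _ hj => ?_
    rw [Finset.mem_range, not_lt] at hj
    rw [coeff_eq_zero_of_natDegree_lt (p := w) (n := j) (by omega), mul_zero]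
  rw [h4, h5]

end Pool.Agent.H4.HP.COF
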