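import Pool.Agent.H13.HP.Defs

/-!
MP_6b5a9a_nt (odd characteristic), module DEG: the degree of the logarithmic derivative.
-/

set_option autoImplicit false

open Polynomial

namespace Pool.Agent.H4.HP.DEG

open Pool.Agent.H13.HP

theorem deg : T_DEG := by
  intro k _ g f a b w hg hf hb h2 h1 h3
  by_cases hw : w = 0
  · rw [hw, natDegree_zero]
    omega
  have hwb : w * b ≠ 0 := mul_ne_zero hw hb
  have ha' : derivative a ≠ 0 := by
    intro h
    rw [h, mul_zero] at h1
    exact hwb h1.symm
  have hadeg : a.natDegree ≠ 0 := by
    intro h
    exact ha' (by rw [eq_C_of_natDegree_eq_zero h, derivative_C])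
  have ha : a ≠ 0 := by
    intro h
    rw [h] at hadeg
    exact hadeg natDegree_zero
  have e1 : w.natDegree + b.natDegree + 1 ≤ a.natDegree := by
    have e2 : (2 * derivative a).natDegree ≤ (derivative a).natDegree := by
      have : (2 : k[X]) = C 2 := (map_ofNat C 2).symm
      rw [this]
      exact natDegree_C_mul_le _ _
    have e3 := natDegree_derivative_lt hadeg
    rw [h1, natDegree_mul hw hb] at e2
    omega
  have e2 : (derivative f * b + 2 * f * derivative b).natDegree ≤ b.natDegree + 2 * g := by
    have e3 : (derivative f).natDegree ≤ 2 * g := by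
      have := natDegree_derivative_le f
      omega
    refine (natDegree_add_le _ _).trans (max_le ?_ ?_)
    · exact natDegree_mul_le.trans (by omega)
    · by_cases hb' : b.natDegree = 0
      · rw [eq_C_of_natDegree_eq_zero hb', derivative_C, mul_zero, natDegree_zero]
        omega
      · have e4 := natDegree_derivative_lt hb'
        have e5 : (2 * f).natDegree ≤ f.natDegree := by
          have : (2 : k[X]) = C 2 := (map_ofNat C 2).symm
          rw [this]
          exact natDegree_C_mul_le _ _
        exact natDegree_mul_le.trans (by omega)
  rw [← h3, natDegree_mul ha hw] at e2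
  omega

end Pool.Agent.H4.HP.DEG
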