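import Pool.Agent.H27.HP.T
import Pool.Agent.H20.HB.EXI

/-!
# HP board, module EXP (existence of centred extremals for `p ≥ 2`)
-/

set_option autoImplicit false

namespace Pool.Agent.H4.HP
open MeasureTheory Set Filter Topology Pool.Agent.H80.HS Pool.Agent.H93.HQ Pool.Agent.H27.HB
open Pool.Agent.H27.HP Pool.Agent.H20.HB
open scoped ContDiff ENNReal

/-- EXP. -/
theorem pf_EXP (hMIN : T_MIN) (hEQI : T_EQI) (hREL : T_REL) (hVTQ : T_VTQ) (hCLK : T_CLK)
    (_hOPT : T_OPT) (hTQ : T_TQ) (hHGA : T_HGA) (hCLT : T_CLT) : T_EXP := by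
  intro n hn p S hp2 hpQ hS
  have hnR : (1 : ℝ) ≤ n := by exact_mod_cast hn
  have hp : 1 < p := by linarith
  have hp0 : 0 < p := by linarith
  obtain ⟨q, hq⟩ : ∃ q, q = ps n p := ⟨_, rfl⟩
  have hq1 : 1 < q := by
    rw [hq, ps, lt_div_iff₀ (by linarith)]
    nlinarith
  have hq0 : 0 < q := by linarith
  have hS0 : 0 < S := hS.1
  obtain ⟨φ, hφ⟩ := hMIN n hn p S hp hpQ hS
  rw [← hq] at hφ
  have hT : ∀ k, Tst (φ k) := fun k => (hφ k).1.1
  have hms : ∀ k, ms q (φ k) = 1 := fun k => by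
    rw [hq]
    exact (hφ k).1.2.1
  have hen : ∀ k, en p (hg (φ k)) ≤ S + 1 / ((k : ℝ) + 1) := fun k => (hφ k).1.2.2
  have hlow : ∀ k, S ≤ en p (hg (φ k)) := by
    intro k
    have := (hTQ n hn p S hp hpQ hS).1 (φ k) (hT k)
    rwa [← hq, hms k, Real.one_rpow, mul_one] at this
  have hlim0 : Tendsto (fun k : ℕ => 1 / ((k : ℝ) + 1)) atTop (𝓝 0) :=
    tendsto_one_div_add_atTop_nhds_zero_nat
  have hint : ∀ k, Integrable fun z => |φ k z| ^ q := by
    intro k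
    refine Continuous.integrable_of_hasCompactSupport ?_ ?_
    · exact ((hT k).1.continuous.abs).rpow_const fun z => Or.inr hq0.le
    · refine (hT k).2.comp_left (g := fun x : ℝ => |x| ^ q) ?_
      show |(0 : ℝ)| ^ q = 0
      rw [abs_zero, Real.zero_rpow hq0.ne']
  have tail : Tail (fun _ => q) φ := by
    intro η hη
    obtain ⟨ε, M, R, hε, h⟩ := hEQI n hn p p η hp le_rfl hpQ hη
    refine ⟨M, R, ?_⟩
    filter_upwards [hlim0.eventually_le_const hε] with k hk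
    refine ⟨hint k, ?_⟩
    have h2 := h p S le_rfl le_rfl hS (φ k)
      ⟨hT k, by rw [← hq]; exact hms k, (hen k).trans (by linarith)⟩
    rw [← hq] at h2
    refine h2 fun i b => ?_
    rw [(hφ k).2 i b, abs_zero]
    unfold kap
    positivity
  have hle1 : ∀ k : ℕ, 1 / ((k : ℝ) + 1) ≤ 1 := fun k => by
    rw [div_le_one (by positivity)]
    have : (0 : ℝ) ≤ k := Nat.cast_nonneg k
    linarith
  obtain ⟨σ, u, hσ, hu, hae⟩ := hREL n hn p p (S + 1) (fun _ => p) φ hp le_rfl hpQ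
    (fun _ => ⟨le_rfl, le_rfl⟩) hT (fun k => by
      show ms (ps n p) (φ k) ≤ S + 1
      rw [← hq, hms k]
      linarith) (fun k => (hen k).trans (by linarith [hle1 k]))
  have tail' : Tail (fun _ => q) (fun k => φ (σ k)) := by
    intro η hη
    obtain ⟨M, R, h⟩ := tail η hη
    exact ⟨M, R, hσ.tendsto_atTop.eventually h⟩
  obtain ⟨hi, h1, h2, h3⟩ := hVTQ n (fun _ => q) q (fun k => φ (σ k)) u hq1.le (fun _ => hq1.le)
    tendsto_const_nhds (fun k => (hT _).1.continuous.aestronglyMeasurable)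
    hu.aestronglyMeasurable hae tail'
  have h3' := h3 fun _ => rfl
  have hmu : ms q u = 1 := by
    refine tendsto_nhds_unique h1 ?_
    refine (tendsto_const_nhds (x := (1 : ℝ))).congr fun k => ?_
    exact (hms (σ k)).symm
  have hcen : Cen (fun z => |u z| ^ q) := by
    intro i b
    refine tendsto_nhds_unique (h2 (rz i b) (cont_rz i b).measurable ⟨1, rz_le i b⟩) ?_
    refine (tendsto_const_nhds (x := (0 : ℝ))).congr fun k => ?_
    exact ((hφ (σ k)).2 i b).symm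
  obtain ⟨ψ, hψ⟩ : ∃ ψ : ℕ → H n → ℝ, ψ = fun k => φ (σ k) := ⟨_, rfl⟩
  have hTψ : ∀ k, Tst (ψ k) := fun k => by
    rw [hψ]
    exact hT _
  haveI : Fact (1 ≤ ENNReal.ofReal q) := ⟨by
    rw [ENNReal.one_le_ofReal]
    exact hq1.le⟩
  haveI : Fact (1 ≤ ENNReal.ofReal p) := ⟨by
    rw [ENNReal.one_le_ofReal]
    exact hp.le⟩
  have hqne : ENNReal.ofReal q ≠ 0 := by simpa using hq0
  have mu : MemLp u (ENNReal.ofReal q) := by
    rw [← integrable_norm_rpow_iff hu.aestronglyMeasurable hqne ENNReal.ofReal_ne_top,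
      ENNReal.toReal_ofReal hq0.le]
    exact hi
  have mψ : ∀ k, MemLp (ψ k) (ENNReal.ofReal q) := fun k => by
    rw [hq]
    exact (hCLT n hn p hp hpQ _ (hTψ k)).1
  have mg : ∀ k, MemLp (hg (ψ k)) (ENNReal.ofReal p) := fun k =>
    (hCLT n hn p hp hpQ _ (hTψ k)).2.1
  have hΨ : Tendsto (fun k => (mψ k).toLp (ψ k)) atTop (𝓝 (mu.toLp u)) := by
    rw [tendsto_iff_norm_sub_tendsto_zero]
    refine tendsto_of_rpow hq0 (fun _ => norm_nonneg _) ?_
    have h4 : Tendsto (fun k => ms q (fun z => ψ k z - u z)) atTop (𝓝 0) := by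
      rw [hψ]
      exact h3'
    refine h4.congr fun k => ?_
    rw [← MemLp.toLp_sub (mψ k) mu, norm_toLp hq0]
    rfl
  -- the midpoints
  have hmid : ∀ a : ℕ × ℕ, Tst (fun z => (1 / 2) * ψ a.1 z + (1 / 2) * ψ a.2 z) := by
    intro a
    refine ⟨(contDiff_const.mul (hTψ _).1).add (contDiff_const.mul (hTψ _).1), ?_⟩
    exact (hTψ a.1).2.mul_left.add (hTψ a.2).2.mul_left
  have hM : Tendsto (fun a : ℕ × ℕ => ms q (fun z => (1 / 2) * ψ a.1 z + (1 / 2) * ψ a.2 z))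
      atTop (𝓝 1) := by
    have e : ∀ a : ℕ × ℕ, ms q (fun z => (1 / 2) * ψ a.1 z + (1 / 2) * ψ a.2 z) =
        ‖(1 / 2 : ℝ) • (mψ a.1).toLp (ψ a.1) + (1 / 2 : ℝ) • (mψ a.2).toLp (ψ a.2)‖ ^ q := by
      intro a
      rw [← MemLp.toLp_const_smul, ← MemLp.toLp_const_smul, ← MemLp.toLp_add, norm_toLp hq0]
      rfl
    rw [← prod_atTop_atTop_eq]
    have e1 : Tendsto (fun a : ℕ × ℕ => (mψ a.1).toLp (ψ a.1)) (atTop ×ˢ atTop)
        (𝓝 (mu.toLp u)) := hΨ.comp tendsto_fst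
    have e2 : Tendsto (fun a : ℕ × ℕ => (mψ a.2).toLp (ψ a.2)) (atTop ×ˢ atTop)
        (𝓝 (mu.toLp u)) := hΨ.comp tendsto_snd
    have e3 := (((e1.const_smul (1 / 2 : ℝ)).add (e2.const_smul (1 / 2 : ℝ))).norm).rpow_const
      (p := q) (Or.inr hq0.le)
    have e4 : ‖(1 / 2 : ℝ) • mu.toLp u + (1 / 2 : ℝ) • mu.toLp u‖ ^ q = 1 := by
      rw [← add_smul, add_halves, one_smul, norm_toLp hq0]
      exact hmu
    rw [e4] at e3
    exact e3.congr fun a => (e a).symm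
  have ha : Tendsto (fun k => en p (hg (ψ k))) atTop (𝓝 S) := by
    have hup : Tendsto (fun k => S + 1 / ((σ k : ℝ) + 1)) atTop (𝓝 S) := by
      simpa using (tendsto_const_nhds (x := S)).add (hlim0.comp hσ.tendsto_atTop)
    refine tendsto_of_tendsto_of_tendsto_of_le_of_le tendsto_const_nhds hup (fun k => ?_)
      fun k => ?_
    · rw [hψ]
      exact hlow _
    · rw [hψ]
      exact hen _
  have haS : ∀ k, S ≤ en p (hg (ψ k)) := fun k => by
    rw [hψ]
    exact hlow _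
  have hen0 : ∀ f : H n → G n, 0 ≤ en p f := fun f =>
    integral_nonneg fun z => Real.rpow_nonneg (norm_nonneg _) _
  have hD : Tendsto (fun a : ℕ × ℕ => en p (fun z => hg (ψ a.1) z - hg (ψ a.2) z)) atTop
      (𝓝 0) := by
    obtain ⟨y, hy⟩ : ∃ y : ℕ × ℕ → ℝ, y = fun a => en p (hg (ψ a.1)) + en p (hg (ψ a.2)) -
      2 * (S * ms q (fun z => (1 / 2) * ψ a.1 z + (1 / 2) * ψ a.2 z) ^ th n p) := ⟨_, rfl⟩
    have hy0 : Tendsto y atTop (𝓝 0) := by
      rw [hy]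
      have e1 : Tendsto (fun a : ℕ × ℕ => en p (hg (ψ a.1))) atTop (𝓝 S) := by
        rw [← prod_atTop_atTop_eq]
        exact ha.comp tendsto_fst
      have e2 : Tendsto (fun a : ℕ × ℕ => en p (hg (ψ a.2))) atTop (𝓝 S) := by
        rw [← prod_atTop_atTop_eq]
        exact ha.comp tendsto_snd
      have e3 := hM.rpow_const (p := th n p) (Or.inl one_ne_zero)
      rw [Real.one_rpow] at e3
      have e4 := (e1.add e2).sub ((e3.const_mul S).const_mul 2)
      have e5 : S + S - 2 * (S * 1) = 0 := by ring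
      rw [e5] at e4
      exact e4
    have hb : Tendsto (fun a => 2 ^ (p - 1) * y a) atTop (𝓝 0) := by
      have e2 := hy0.const_mul ((2 : ℝ) ^ (p - 1))
      rwa [mul_zero] at e2
    refine squeeze_zero (fun a => hen0 _) (fun a => ?_) hb
    refine (hCLK n p hp2 (hg (ψ a.1)) (hg (ψ a.2)) (mg _) (mg _)).trans ?_
    have hhg : ∀ z, hg (fun z => (1 / 2) * ψ a.1 z + (1 / 2) * ψ a.2 z) z =
        (1 / 2 : ℝ) • (hg (ψ a.1) z + hg (ψ a.2) z) := by
      intro z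
      rw [(hHGA n (ψ a.1) (ψ a.2) z ((hTψ _).1.differentiable (by simp) z)
        ((hTψ _).1.differentiable (by simp) z)).1 (1 / 2) (1 / 2), smul_add]
    have e1 : en p (fun z => (1 / 2 : ℝ) • (hg (ψ a.1) z + hg (ψ a.2) z)) =
        en p (hg (fun z => (1 / 2) * ψ a.1 z + (1 / 2) * ψ a.2 z)) := by
      unfold en
      exact integral_congr_ae (Eventually.of_forall fun z => by
        show _ = ‖_‖ ^ p
        rw [hhg z])
    rw [e1]
    have e2 := (hTQ n hn p S hp hpQ hS).1 _ (hmid a)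
    rw [← hq] at e2
    have e3 : en p (hg (ψ a.1)) + en p (hg (ψ a.2)) -
        2 * en p (hg (fun z => (1 / 2) * ψ a.1 z + (1 / 2) * ψ a.2 z)) ≤ y a := by
      rw [hy]
      show _ ≤ en p (hg (ψ a.1)) + en p (hg (ψ a.2)) -
        2 * (S * ms q (fun z => (1 / 2) * ψ a.1 z + (1 / 2) * ψ a.2 z) ^ th n p)
      linarith
    exact mul_le_mul_of_nonneg_left e3 (by positivity)
  -- the limit of the gradients
  have hCau : CauchySeq (fun k => (mg k).toLp (hg (ψ k))) := by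
    rw [cauchySeq_iff_tendsto_dist_atTop_0]
    refine tendsto_of_rpow hp0 (fun _ => dist_nonneg) ?_
    refine hD.congr fun a => ?_
    rw [dist_eq_norm, ← MemLp.toLp_sub, norm_toLp hp0]
    rfl
  obtain ⟨Γ, hΓ⟩ := cauchySeq_tendsto_of_complete hCau
  have hΓe : (Lp.memLp Γ).toLp (Γ : H n → G n) = Γ := Lp.toLp_coeFn Γ (Lp.memLp Γ)
  refine ⟨u, (Γ : H n → G n), ⟨⟨?_, Lp.memLp Γ, ψ, hTψ, ?_, ?_⟩, ?_, ?_⟩, ?_⟩
  · rw [← hq]
    exact mu
  · rw [← hq, hψ]
    exact h3'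
  · have e1 := rpow_to_zero hp0 (tendsto_iff_norm_sub_tendsto_zero.1 hΓ)
    refine e1.congr fun k => ?_
    rw [← hΓe, ← MemLp.toLp_sub, norm_toLp hp0]
    rw [hΓe]
    rfl
  · rw [← hq]
    exact hmu
  · have e1 := (hΓ.norm).rpow_const (p := p) (Or.inr hp0.le)
    have e2 : ‖Γ‖ ^ p = en p (Γ : H n → G n) := by
      nth_rewrite 1 [← hΓe]
      rw [norm_toLp hp0]
      rfl
    rw [← e2]
    refine tendsto_nhds_unique e1 (ha.congr fun k => ?_)
    rw [norm_toLp hp0]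
    rfl
  · rw [← hq]
    exact hcen

end Pool.Agent.H4.HP
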