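import Pool.Agent.H27.HP.T
import Pool.Agent.H35.HBE.LOW

/-!
# HP board, module LOP: the lower bound for the energy near the Jerison-Lee function, `p > 2`
-/

set_option autoImplicit false

namespace Pool.Agent.H4.HP
open MeasureTheory Set Filter Topology Pool.Agent.H80.HS Pool.Agent.H93.HQ Pool.Agent.H27.HB
open Pool.Agent.H27.HP
open scoped ContDiff ENNReal

open Pool.Agent.H35.HBE.LOW Pool.Agent.H54.HB.Tools in
/-- LOP. -/
theorem pf_LOP (hUCL : T_UCL) (hUTP : T_UTP) (hLNC : T_LNC) (hLND : T_LND) (hWKQ : T_WKQ)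
    (hCVP : T_CVP) (hBBE : T_BBE) (hCLA : T_CLA) (hSOB : T_SOB) (hOPT : T_OPT) : T_LOP := by
  intro n hn B
  obtain ⟨A1, hA1, hU⟩ := hUTP n hn
  obtain ⟨A2, hA2, hLA⟩ := hLNC n hn
  obtain ⟨A3, hA3, hLB⟩ := hLND n hn
  have hn1 : (1 : ℝ) ≤ n := by exact_mod_cast hn
  obtain ⟨L, _, hL, hO⟩ := hOPT n hn 2 (17 / 8) (by norm_num) (by norm_num) (by linarith)
  obtain ⟨E, hEdef⟩ : ∃ E : ℝ, E = max 1 L⁻¹ := ⟨_, rfl⟩
  have hE1 : 1 ≤ E := hEdef ▸ le_max_left _ _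
  obtain ⟨K, hKdef⟩ : ∃ K : ℝ, K = max 1 (2 * A1) := ⟨_, rfl⟩
  have hK1 : 1 ≤ K := hKdef ▸ le_max_left _ _
  have hE0 : 0 < E := by linarith
  have hK0 : 0 < K := by linarith
  refine ⟨K * E ^ 2 + 3 * (4 * (n : ℝ) ^ 2 * A3 * E + A2), by positivity, ?_⟩
  intro p S hp2 hp8 hS v g hv hv0 hms hB
  have hp0 : 0 < p := by linarith
  have hp11 : 1 < p := by linarith
  have hpQ : p < 2 * n + 2 := by linarith
  obtain ⟨hucl, _, _, _⟩ := hUCL n hn p (by linarith) (by linarith)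
  obtain ⟨_, hmsA, henA, _⟩ := hU p hp2.le hp8
  have hLS : L ≤ S := ((hO p hp2.le hp8).2 S hS).1
  have hum : MemLp (u0 n) (ENNReal.ofReal (ps n p)) := hucl.1
  have hgum : MemLp (hg (u0 n)) (ENNReal.ofReal p) := hucl.2.1
  have hvm : MemLp v (ENNReal.ofReal (ps n p)) := hv.1
  have hgm : MemLp g (ENNReal.ofReal p) := hv.2.1
  have hq : 2 < ps n p := by
    unfold ps
    rw [lt_div_iff₀ (by linarith)]
    nlinarith
  have hq0 : 0 < ps n p := by linarith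
  -- the difference
  have hcl : Cl p (fun z => v z - u0 n z) (fun z => g z - hg (u0 n) z) := by
    have h1 := hCLA n hn p hp11 hpQ v (u0 n) g (hg (u0 n)) 1 (-1) hv hucl
    have e1 : (fun z => (1 : ℝ) * v z + -1 * u0 n z) = fun z => v z - u0 n z := by
      funext z
      ring
    have e2 : (fun z => (1 : ℝ) • g z + (-1 : ℝ) • hg (u0 n) z) =
        fun z => g z - hg (u0 n) z := by
      funext z
      rw [one_smul, neg_smul, one_smul, sub_eq_add_neg]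
    rw [e1, e2] at h1
    exact h1
  have hi1 := int_w hp11 hgum hgm
  have hN0 : 0 ≤ N2 p g := integral_nonneg fun z => by positivity
  have hs0 : 0 ≤ N2 p g ^ (1 / p) := Real.rpow_nonneg hN0 _
  have hen0 : 0 ≤ en p (fun z => g z - hg (u0 n) z) := integral_nonneg fun z => by positivity
  -- the energy of the difference
  have hen : en p (fun z => g z - hg (u0 n) z) ≤ N2 p g := by
    refine integral_mono (int_rpow hp0 (hgm.sub hgum)) hi1 fun z => ?_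
    show ‖g z - hg (u0 n) z‖ ^ p ≤ (‖hg (u0 n) z‖ + ‖g z‖) ^ (p - 2) * ‖hg (u0 n) z - g z‖ ^ 2
    rw [norm_sub_rev]
    have h1 : ‖hg (u0 n) z - g z‖ ^ p =
        ‖hg (u0 n) z - g z‖ ^ (p - 2) * ‖hg (u0 n) z - g z‖ ^ 2 := by
      rw [← Real.rpow_natCast, ← Real.rpow_add' (norm_nonneg _) (by push_cast; linarith)]
      congr 1
      push_cast
      ring
    rw [h1]
    refine mul_le_mul_of_nonneg_right ?_ (sq_nonneg _)
    exact Real.rpow_le_rpow (norm_nonneg _) (norm_sub_le _ _) (by linarith)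
  have hpinv0 : 0 ≤ 1 / p := by positivity
  have hpinv1 : 1 / p ≤ 1 := by
    rw [div_le_one hp0]
    linarith
  have hen' : en p (fun z => g z - hg (u0 n) z) ^ (1 / p) ≤ N2 p g ^ (1 / p) :=
    Real.rpow_le_rpow hen0 hen hpinv0
  -- the norm of the difference
  have hms0 : 0 ≤ ms (ps n p) (fun z => v z - u0 n z) := integral_nonneg fun z => by positivity
  have hmsw : ms (ps n p) (fun z => v z - u0 n z) ^ (1 / ps n p) ≤ E * N2 p g ^ (1 / p) := by
    have h1 := hSOB n hn p S hp11 hpQ hS _ _ hcl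
    have h2 : ms (ps n p) (fun z => v z - u0 n z) ^ th n p ≤
        L⁻¹ * en p (fun z => g z - hg (u0 n) z) := by
      rw [inv_mul_eq_div, le_div_iff₀ hL, mul_comm]
      exact (mul_le_mul_of_nonneg_right hLS (Real.rpow_nonneg hms0 _)).trans h1
    have h3 : th n p * (1 / p) = 1 / ps n p := by
      unfold th ps
      have : (2 * (n : ℝ) + 2 - p) ≠ 0 := by linarith
      field_simp
    have h4 : (ms (ps n p) (fun z => v z - u0 n z) ^ th n p) ^ (1 / p) =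
        ms (ps n p) (fun z => v z - u0 n z) ^ (1 / ps n p) := by
      rw [← Real.rpow_mul hms0, h3]
    rw [← h4]
    have hLi : 0 ≤ L⁻¹ := by positivity
    calc (ms (ps n p) (fun z => v z - u0 n z) ^ th n p) ^ (1 / p)
        ≤ (L⁻¹ * en p (fun z => g z - hg (u0 n) z)) ^ (1 / p) :=
          Real.rpow_le_rpow (Real.rpow_nonneg hms0 _) h2 hpinv0
      _ = L⁻¹ ^ (1 / p) * en p (fun z => g z - hg (u0 n) z) ^ (1 / p) :=
          Real.mul_rpow hLi hen0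
      _ ≤ E * N2 p g ^ (1 / p) := by
          refine mul_le_mul (rpow_le_of hLi hE1 (hEdef ▸ le_max_right _ _) hpinv0 hpinv1) hen'
            (Real.rpow_nonneg hen0 _) (by linarith)
  have hu0ae : ∀ᵐ z, 0 ≤ u0 n z := Eventually.of_forall u0_nonneg
  have hsq : (N2 p g ^ (1 / p)) ^ 2 = N2 p g ^ (2 / p) := by
    rw [← Real.rpow_natCast, ← Real.rpow_mul hN0]
    congr 1
    push_cast
    ring
  -- the integral with the divided difference
  have hbb : ∫ z, bb (ps n p) (u0 n z) (v z) * (v z - u0 n z) ^ 2 ≤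
      K * E ^ 2 * N2 p g ^ (2 / p) := by
    refine (int_bb hBBE hq hum hvm hu0ae hv0).trans ?_
    have h1 : (ms (ps n p) (u0 n) + ms (ps n p) v) ^ ((ps n p - 2) / ps n p) ≤ K := by
      have h2 : 0 ≤ ms (ps n p) (u0 n) := integral_nonneg fun z => by positivity
      refine rpow_le_of (by rw [hms]; linarith) hK1 ?_ (div_nonneg (by linarith) hq0.le) ?_
      · rw [hms, hKdef]
        exact le_trans (by linarith) (le_max_right _ _)
      · rw [div_le_one hq0]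
        linarith
    have h3 : ms (ps n p) (fun z => v z - u0 n z) ^ (2 / ps n p) ≤ E ^ 2 * N2 p g ^ (2 / p) := by
      have h4 : ms (ps n p) (fun z => v z - u0 n z) ^ (2 / ps n p) =
          (ms (ps n p) (fun z => v z - u0 n z) ^ (1 / ps n p)) ^ 2 := by
        rw [← Real.rpow_natCast, ← Real.rpow_mul hms0]
        congr 1
        push_cast
        ring
      rw [h4, ← hsq, ← mul_pow]
      exact pow_le_pow_left₀ (Real.rpow_nonneg hms0 _) hmsw 2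
    calc _ ≤ K * (E ^ 2 * N2 p g ^ (2 / p)) := mul_le_mul h1 h3 (Real.rpow_nonneg hms0 _) hK0.le
      _ = _ := by ring
  have hAA : 0 ≤ 3 * (4 * (n : ℝ) ^ 2 * A3 * E + A2) := by positivity
  have hAC : 0 ≤ K * E ^ 2 := by positivity
  refine ⟨hi1, hen, ?_, ?_⟩
  · refine hbb.trans (mul_le_mul_of_nonneg_right ?_ (Real.rpow_nonneg hN0 _))
    linarith
  -- the main inequality
  obtain ⟨hj1, hj2, hj3, hj4, hj5⟩ := hWKQ n hn p hp2.le hp8 _ _ hcl
  have hla := hLA p hp2.le hp8 (fun z => g z - hg (u0 n) z) hcl.2.1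
  have hlb := hLB p hp2.le hp8 (fun z => v z - u0 n z) hcl.1
  have hid := bb_id hBBE hq hum hvm hu0ae hv0 hms hj4
  have e1 : ∫ z, (‖hg (u0 n) z‖ ^ (p - 2) - 1) * inner ℝ (hg (u0 n) z) (g z - hg (u0 n) z) =
      (∫ z, ‖hg (u0 n) z‖ ^ (p - 2) * inner ℝ (hg (u0 n) z) (g z - hg (u0 n) z)) -
        ∫ z, inner ℝ (hg (u0 n) z) (g z - hg (u0 n) z) := by
    rw [← integral_sub hj2 hj1]
    refine integral_congr_ae (Eventually.of_forall fun z => ?_)
    show (‖hg (u0 n) z‖ ^ (p - 2) - 1) * inner ℝ (hg (u0 n) z) (g z - hg (u0 n) z) =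
      ‖hg (u0 n) z‖ ^ (p - 2) * inner ℝ (hg (u0 n) z) (g z - hg (u0 n) z) -
        inner ℝ (hg (u0 n) z) (g z - hg (u0 n) z)
    ring
  have e2 : ∫ z, (u0 n z ^ (ps n 2 - 1) - u0 n z ^ (ps n p - 1)) * (v z - u0 n z) =
      (∫ z, u0 n z ^ (ps n 2 - 1) * (v z - u0 n z)) -
        ∫ z, u0 n z ^ (ps n p - 1) * (v z - u0 n z) := by
    rw [← integral_sub hj3 hj4]
    refine integral_congr_ae (Eventually.of_forall fun z => ?_)
    show (u0 n z ^ (ps n 2 - 1) - u0 n z ^ (ps n p - 1)) * (v z - u0 n z) =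
      u0 n z ^ (ps n 2 - 1) * (v z - u0 n z) - u0 n z ^ (ps n p - 1) * (v z - u0 n z)
    ring
  rw [e1] at hla
  rw [e2] at hlb
  have hla' := (abs_le.1 hla).1
  have hlb' := (abs_le.1 hlb).1
  -- integrate the pointwise inequality
  have h1 : Integrable (fun z => ‖hg (u0 n) z‖ ^ p) := int_rpow hp0 hgum
  have h2 : Integrable (fun z => ‖g z‖ ^ p) := int_rpow hp0 hgm
  have h3 : (∫ z, (‖hg (u0 n) z‖ ^ p +
      p * (‖hg (u0 n) z‖ ^ (p - 2) * inner ℝ (hg (u0 n) z) (g z - hg (u0 n) z)) +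
      6 ^ (2 - p) *
        ((‖hg (u0 n) z‖ + ‖g z‖) ^ (p - 2) * ‖hg (u0 n) z - g z‖ ^ 2))) ≤
      ∫ z, ‖g z‖ ^ p := by
    refine integral_mono ((h1.add (hj2.const_mul p)).add (hi1.const_mul _)) h2 (fun z => ?_)
    have h4 := hCVP n p hp2.le (hg (u0 n) z) (g z)
    show ‖hg (u0 n) z‖ ^ p +
      p * (‖hg (u0 n) z‖ ^ (p - 2) * inner ℝ (hg (u0 n) z) (g z - hg (u0 n) z)) +
      6 ^ (2 - p) *
        ((‖hg (u0 n) z‖ + ‖g z‖) ^ (p - 2) * ‖hg (u0 n) z - g z‖ ^ 2) ≤ ‖g z‖ ^ p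
    refine le_trans (le_of_eq ?_) h4
    ring
  have hk1 : Integrable (fun z =>
      p * (‖hg (u0 n) z‖ ^ (p - 2) * inner ℝ (hg (u0 n) z) (g z - hg (u0 n) z))) :=
    hj2.const_mul p
  have hk2 : Integrable (fun z => ‖hg (u0 n) z‖ ^ p +
      p * (‖hg (u0 n) z‖ ^ (p - 2) * inner ℝ (hg (u0 n) z) (g z - hg (u0 n) z))) :=
    h1.add hk1
  rw [integral_add hk2 (hi1.const_mul _),
    integral_add h1 hk1, integral_const_mul, integral_const_mul] at h3
  have h6 : en p (hg (u0 n)) = ∫ z, ‖hg (u0 n) z‖ ^ p := rfl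
  have h7 : en p g = ∫ z, ‖g z‖ ^ p := rfl
  have h8 : N2 p g = ∫ z, (‖hg (u0 n) z‖ + ‖g z‖) ^ (p - 2) * ‖hg (u0 n) z - g z‖ ^ 2 := rfl
  rw [← h6, ← h7, ← h8] at h3
  rw [hid] at hlb'
  rw [hj5] at hla'
  -- collect
  obtain ⟨I1, hI1⟩ : ∃ I : ℝ, I = ∫ z, ‖hg (u0 n) z‖ ^ (p - 2) *
    inner ℝ (hg (u0 n) z) (g z - hg (u0 n) z) := ⟨_, rfl⟩
  obtain ⟨I2, hI2⟩ : ∃ I : ℝ, I = ∫ z, u0 n z ^ (ps n 2 - 1) * (v z - u0 n z) := ⟨_, rfl⟩
  obtain ⟨I3, hI3⟩ : ∃ I : ℝ, I = ∫ z, bb (ps n p) (u0 n z) (v z) * (v z - u0 n z) ^ 2 :=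
    ⟨_, rfl⟩
  rw [← hI1, ← hI2] at hla'
  rw [← hI2, ← hI3] at hlb'
  rw [← hI1] at h3
  rw [← hI3]
  obtain ⟨s, hs⟩ : ∃ s : ℝ, s = N2 p g ^ (1 / p) := ⟨_, rfl⟩
  rw [← hs] at hen' hmsw hs0
  rw [← hs]
  have hδ : 0 ≤ p - 2 := by linarith
  have h9 : I1 ≥ 4 * (n : ℝ) ^ 2 * I2 - A2 * (p - 2) * s := by
    have : A2 * (p - 2) * en p (fun z => g z - hg (u0 n) z) ^ (1 / p) ≤
        A2 * (p - 2) * s := mul_le_mul_of_nonneg_left hen' (by positivity)
    linarith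
  have h10 : I2 ≥ -((ps n p - 1) / 2 * I3) - A3 * (p - 2) * (E * s) := by
    have : A3 * (p - 2) * ms (ps n p) (fun z => v z - u0 n z) ^ (1 / ps n p) ≤
        A3 * (p - 2) * (E * s) := mul_le_mul_of_nonneg_left hmsw (by positivity)
    linarith
  have h11 : p * I1 ≥ -(p * (4 * (n : ℝ) ^ 2) * ((ps n p - 1) / 2) * I3) -
      p * ((4 * (n : ℝ) ^ 2 * A3 * E + A2) * (p - 2) * s) := by
    have h12 : 4 * (n : ℝ) ^ 2 * I2 ≥
        4 * (n : ℝ) ^ 2 * (-((ps n p - 1) / 2 * I3) - A3 * (p - 2) * (E * s)) :=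
      mul_le_mul_of_nonneg_left h10 (by positivity)
    have h13 : I1 ≥ 4 * (n : ℝ) ^ 2 * (-((ps n p - 1) / 2 * I3) - A3 * (p - 2) * (E * s)) -
        A2 * (p - 2) * s := by linarith
    have h14 := mul_le_mul_of_nonneg_left h13 hp0.le
    refine le_trans (le_of_eq ?_) h14
    ring
  have h15 : p * ((4 * (n : ℝ) ^ 2 * A3 * E + A2) * (p - 2) * s) ≤
      (K * E ^ 2 + 3 * (4 * (n : ℝ) ^ 2 * A3 * E + A2)) * (p - 2) * s := by
    have h16 : p * ((4 * (n : ℝ) ^ 2 * A3 * E + A2) * (p - 2) * s) ≤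
        3 * ((4 * (n : ℝ) ^ 2 * A3 * E + A2) * (p - 2) * s) :=
      mul_le_mul_of_nonneg_right (by linarith) (by positivity)
    have h17 : 0 ≤ (K * E ^ 2) * (p - 2) * s := by positivity
    linarith
  linarith

end Pool.Agent.H4.HP
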